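import Pool.Agent.N594.NT.Stm3

/-!
# NT/TPV (helper94): the value of Turán's construction
-/

set_option autoImplicit false

open Finset
open scoped Classical

namespace Pool.Agent.N94.NT.TPV

open Pool.Agent.N594.NT Pool.Agent.N594.CT

/-- the sets between `X` and `P` -/
theorem card_sup {n d : ℕ} (P X : Finset (Fin n)) (hX : X ⊆ P) (hXc : X.card = 2) :
    ((P.powersetCard (d + 2)).filter fun e => X ⊆ e).card = (P.card - 2).choose d := by
  have h1 : ((P \ X).powersetCard d).card = (P.card - 2).choose d := by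
    rw [card_powersetCard, card_sdiff_of_subset hX, hXc]
  rw [← h1]
  refine Finset.card_nbij' (fun e => e \ X) (fun e => e ∪ X) ?_ ?_ ?_ ?_
  · intro e he
    obtain ⟨h2, h3⟩ := mem_filter.mp (mem_coe.mp he)
    obtain ⟨h4, h5⟩ := mem_powersetCard.mp h2
    refine mem_coe.mpr (mem_powersetCard.mpr ⟨?_, ?_⟩)
    · exact sdiff_subset_sdiff h4 subset_rfl
    · have h8 : (e \ X).card = e.card - X.card := card_sdiff_of_subset h3
      change (e \ X).card = d
      omega
  · intro e he
    obtain ⟨h4, h5⟩ := mem_powersetCard.mp (mem_coe.mp he)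
    refine mem_coe.mpr (mem_filter.mpr ⟨mem_powersetCard.mpr ⟨?_, ?_⟩, subset_union_right⟩)
    · exact union_subset (h4.trans sdiff_subset) hX
    · have h6 : Disjoint e X := disjoint_of_subset_left h4 sdiff_disjoint
      change (e ∪ X).card = d + 2
      rw [card_union_of_disjoint h6, h5, hXc]
  · intro e he
    obtain ⟨h2, h3⟩ := mem_filter.mp (mem_coe.mp he)
    exact sdiff_union_of_subset h3
  · intro e he
    obtain ⟨h4, h5⟩ := mem_powersetCard.mp (mem_coe.mp he)
    have h6 : Disjoint e X := disjoint_of_subset_left h4 sdiff_disjoint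
    exact union_sdiff_cancel_right h6

variable {d n k : ℕ} (π : Fin n → Fin k)

/-- the part `j` -/
def pt (j : Fin k) : Finset (Fin n) := univ.filter fun v => π v = j

theorem degr_out {X : Finset (Fin n)} (hXc : X.card = 2) (h : ∀ j, ¬ X ⊆ pt π j) :
    degr (TP d π) X = (n - 2).choose d := by
  have h0 := card_sup (d := d) univ X (subset_univ _) hXc
  rw [card_univ, Fintype.card_fin] at h0
  rw [← h0]
  unfold degr
  congr 1
  ext e
  simp only [mem_filter, TP]
  constructor
  · rintro ⟨⟨h1, -⟩, h2⟩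
    exact ⟨h1, h2⟩
  · rintro ⟨h1, h2⟩
    refine ⟨⟨h1, ?_⟩, h2⟩
    obtain ⟨x, hx⟩ : X.Nonempty := by rw [← card_pos]; omega
    have h3 := h (π x)
    rw [subset_iff] at h3
    push Not at h3
    obtain ⟨y, hy, hy2⟩ := h3
    refine ⟨x, h2 hx, y, h2 hy, fun h4 => hy2 ?_⟩
    exact mem_filter.mpr ⟨mem_univ _, h4.symm⟩

theorem degr_in {X : Finset (Fin n)} (hXc : X.card = 2) {j : Fin k} (h : X ⊆ pt π j) :
    degr (TP d π) X + (ps π j - 2).choose d = (n - 2).choose d := by
  have h0 := card_sup (d := d) univ X (subset_univ _) hXc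
  rw [card_univ, Fintype.card_fin] at h0
  have h1 := card_sup (d := d) (pt π j) X h hXc
  have h2 : (pt π j).card = ps π j := rfl
  rw [h2] at h1
  rw [← h0, ← h1]
  unfold degr
  obtain ⟨x, hx⟩ : X.Nonempty := by rw [← card_pos]; omega
  have hxj : π x = j := (mem_filter.mp (h hx)).2
  rw [← card_union_of_disjoint]
  · congr 1
    ext e
    simp only [mem_union, mem_filter, TP, mem_powersetCard]
    constructor
    · rintro (⟨⟨⟨h3, h4⟩, -⟩, h5⟩ | ⟨⟨h3, h4⟩, h5⟩)
      · exact ⟨⟨h3, h4⟩, h5⟩
      · exact ⟨⟨subset_univ _, h4⟩, h5⟩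
    · rintro ⟨⟨h3, h4⟩, h5⟩
      by_cases h6 : e ⊆ pt π j
      · exact Or.inr ⟨⟨h6, h4⟩, h5⟩
      · left
        rw [subset_iff] at h6
        push Not at h6
        obtain ⟨y, hy, hy2⟩ := h6
        refine ⟨⟨⟨h3, h4⟩, x, h5 hx, y, hy, fun h7 => hy2 ?_⟩, h5⟩
        exact mem_filter.mpr ⟨mem_univ _, h7.symm.trans hxj⟩
  · rw [disjoint_left]
    intro e he1 he2
    simp only [mem_filter, TP, mem_powersetCard] at he1 he2
    obtain ⟨⟨-, a, ha, b, hb, hab⟩, -⟩ := he1
    apply hab
    have h3 := (mem_filter.mp (he2.1.1 ha)).2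
    have h4 := (mem_filter.mp (he2.1.1 hb)).2
    rw [h3, h4]

theorem main : S_TPV := by
  intro d n k p π hd hn hp
  have hC : 0 < (n - 2).choose d := Nat.choose_pos (by omega)
  have hC0 : (0 : ℝ) < ((n - 2).choose d : ℝ) := by exact_mod_cast hC
  have hf : (0 : ℝ) < (d.factorial : ℝ) := by exact_mod_cast Nat.factorial_pos d
  obtain ⟨c, hc⟩ : ∃ c : Fin k → ℝ, c = fun j =>
    1 - (1 - ((ps π j - 2).descFactorial d : ℝ) / ((n - 2).descFactorial d : ℝ)) ^ p := ⟨_, rfl⟩
  have hrat : ∀ r : ℕ, (r.descFactorial d : ℝ) / ((n - 2).descFactorial d : ℝ) =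
      (r.choose d : ℝ) / ((n - 2).choose d : ℝ) := by
    intro r
    rw [Nat.descFactorial_eq_factorial_mul_choose, Nat.descFactorial_eq_factorial_mul_choose]
    push_cast
    exact mul_div_mul_left _ _ hf.ne'
  have hterm : ∀ X ∈ (univ : Finset (Fin n)).powersetCard 2,
      ((degr (TP d π) X : ℝ) / ((n - 2).choose (d + 2 - 2) : ℝ)) ^ p =
        1 - ∑ j, if X ⊆ pt π j then c j else 0 := by
    intro X hX
    have hXc := (mem_powersetCard.mp hX).2
    rw [show d + 2 - 2 = d by omega]
    by_cases h : ∃ j, X ⊆ pt π j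
    · obtain ⟨j, hj⟩ := h
      obtain ⟨x, hx⟩ : X.Nonempty := by rw [← card_pos]; omega
      have hxj : π x = j := (mem_filter.mp (hj hx)).2
      have h1 : ∑ i, (if X ⊆ pt π i then c i else 0) = c j := by
        rw [sum_eq_single j]
        · rw [if_pos hj]
        · intro i _ hij
          rw [if_neg]
          intro h2
          exact hij ((mem_filter.mp (h2 hx)).2.symm.trans hxj)
        · intro h2
          exact absurd (mem_univ _) h2
      rw [h1, hc]
      simp only
      rw [hrat, sub_sub_cancel]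
      congr 1
      have h2 := degr_in (d := d) π hXc hj
      have h3 : (degr (TP d π) X : ℝ) + ((ps π j - 2).choose d : ℝ) = ((n - 2).choose d : ℝ) := by
        exact_mod_cast h2
      rw [eq_sub_iff_add_eq, ← add_div, h3, div_self hC0.ne']
    · push Not at h
      have h1 : ∑ i, (if X ⊆ pt π i then c i else 0) = 0 :=
        sum_eq_zero fun i _ => if_neg (h i)
      rw [h1, degr_out π hXc h, div_self hC0.ne', Real.one_rpow, sub_zero]
  unfold nsum
  rw [sum_congr rfl hterm, sum_sub_distrib, sum_const, card_powersetCard, card_univ,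
    Fintype.card_fin, nsmul_eq_mul, mul_one, sum_comm, mul_sub, Nat.cast_choose_two, mul_sum]
  congr 1
  · ring
  · refine sum_congr rfl fun j _ => ?_
    rw [← sum_filter, sum_const, nsmul_eq_mul]
    have h1 : ((univ : Finset (Fin n)).powersetCard 2).filter (fun X => X ⊆ pt π j) =
        (pt π j).powersetCard 2 := by
      ext X
      simp only [mem_filter, mem_powersetCard]
      constructor
      · rintro ⟨⟨-, h2⟩, h3⟩
        exact ⟨h3, h2⟩
      · rintro ⟨h3, h2⟩
        exact ⟨⟨subset_univ _, h2⟩, h3⟩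
    rw [h1, card_powersetCard]
    have h2 : (pt π j).card = ps π j := rfl
    rw [h2, Nat.cast_choose_two, hc]
    unfold gq
    ring

end Pool.Agent.N94.NT.TPV
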